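import Mathlib

namespace Pool.Agent.Results.MP_4c442e_co.Full

open Multiset

variable {d : ℕ}

abbrev V (d : ℕ) := Fin d → ℤ

def cls (x : V d) : Fin d → ZMod 2 := fun i => (x i : ZMod 2)

def Free (k : ℕ) (S : Multiset (V d)) : Prop :=
  ∀ T ≤ S, card T = 2 ^ k → ¬ ∀ i, (2 : ℤ) ^ k ∣ (T.map (fun x => x i)).sum

def hs (p : V d × V d) : V d := fun i => (p.1 i + p.2 i) / 2

def un (P : Multiset (V d × V d)) : Multiset (V d) := P.map Prod.fst + P.map Prod.snd

lemma le_map' {α β : Type*} (f : α → β) (t : Multiset β) :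
    ∀ s : Multiset α, t ≤ s.map f → ∃ u ≤ s, t = u.map f := by
  classical
  induction t using Multiset.induction_on with
  | empty => intro s _; exact ⟨0, Multiset.zero_le _, by simp⟩
  | cons a t ih =>
    intro s h
    have ha : a ∈ s.map f := mem_of_le h (mem_cons_self _ _)
    obtain ⟨b, hb, rfl⟩ := mem_map.1 ha
    obtain ⟨s', rfl⟩ := exists_cons_of_mem hb
    rw [map_cons, cons_le_cons_iff] at h
    obtain ⟨u, hu, rfl⟩ := ih s' h
    exact ⟨b ::ₘ u, cons_le_cons _ hu, by simp⟩

lemma exists_le_card_eq {α : Type*} {s : Multiset α} {n : ℕ} (h : n ≤ card s) :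
    ∃ t ≤ s, card t = n := by
  induction s using Quot.inductionOn with
  | _ l =>
    refine ⟨(l.take n : List α), (List.take_sublist n l).subperm, ?_⟩
    simpa using h

lemma msum {α ι : Type*} (f : α → ℤ) (s : Finset ι) (T : ι → Multiset α) :
    ((∑ c ∈ s, T c).map f).sum = ∑ c ∈ s, ((T c).map f).sum := by
  classical
  induction s using Finset.induction_on with
  | empty => simp
  | insert a s ha ih => rw [Finset.sum_insert ha, Finset.sum_insert ha, Multiset.map_add, sum_add, ih]

lemma two_hs (p : V d × V d) (h : cls p.1 = cls p.2) (i : Fin d) :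
    2 * hs p i = p.1 i + p.2 i := by
  have h1 := congrFun h i
  simp only [cls] at h1
  have h2 := (ZMod.intCast_eq_intCast_iff_dvd_sub _ _ 2).1 h1
  simp only [hs]
  push_cast at h2
  omega

lemma lift (k : ℕ) (P : Multiset (V d × V d)) (R : Multiset (V d))
    (hP : ∀ p ∈ P, cls p.1 = cls p.2) (h : Free (k + 1) (un P + R)) : Free k (P.map hs) := by
  intro T hT hc hd
  obtain ⟨Q, hQ, rfl⟩ := le_map' _ _ _ hT
  refine h (un Q) ?_ ?_ ?_
  · exact le_trans (add_le_add (map_le_map hQ) (map_le_map hQ)) (Multiset.le_add_right _ _)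
  · simp only [un, card_add, card_map] at hc ⊢
    rw [hc]; ring
  · intro i
    have e : ((un Q).map (fun x => x i)).sum = 2 * ((Q.map hs).map (fun x => x i)).sum := by
      simp only [un, Multiset.map_add, sum_add, map_map, Function.comp_def]
      rw [← sum_map_mul_left, ← sum_map_add]
      congr 1
      exact map_congr rfl (fun p hp => (two_hs p (hP p (mem_of_le hQ hp)) i).symm)
    rw [e, pow_succ']
    exact mul_dvd_mul_left _ (hd i)

lemma pairing (S : Multiset (V d)) : ∃ P R, S = un P + R ∧ (∀ p ∈ P, cls p.1 = cls p.2) ∧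
    (R.map cls).Nodup := by
  classical
  induction S using Multiset.induction_on with
  | empty => exact ⟨0, 0, by simp [un], by simp, by simp⟩
  | cons a S ih =>
    obtain ⟨P, R, rfl, hP, hR⟩ := ih
    by_cases h : cls a ∈ R.map cls
    · obtain ⟨b, hb, hab⟩ := mem_map.1 h
      obtain ⟨R', rfl⟩ := exists_cons_of_mem hb
      refine ⟨(a, b) ::ₘ P, R', ?_, ?_, ?_⟩
      · simp only [un, map_cons]; simp only [← singleton_add]; abel
      · intro p hp
        rcases mem_cons.1 hp with rfl | hp
        · exact hab.symm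
        · exact hP p hp
      · rw [map_cons] at hR; exact (nodup_cons.1 hR).2
    · refine ⟨P, a ::ₘ R, ?_, hP, ?_⟩
      · simp only [← singleton_add]; abel
      · rw [map_cons]; exact nodup_cons.2 ⟨h, hR⟩

lemma card_cls : Fintype.card (Fin d → ZMod 2) = 2 ^ d := by simp

lemma card_R (R : Multiset (V d)) (hR : (R.map cls).Nodup) : card R ≤ 2 ^ d := by
  have := Finset.card_le_univ (⟨_, hR⟩ : Finset _)
  rw [card_cls] at this
  simpa using this

lemma full_R (R : Multiset (V d)) (hR : (R.map cls).Nodup) (h : card R = 2 ^ d) (c) :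
    c ∈ R.map cls := by
  have : (⟨_, hR⟩ : Finset (Fin d → ZMod 2)) = Finset.univ := by
    apply Finset.eq_univ_of_card
    rw [card_cls]; simpa using h
  have h2 : c ∈ (⟨_, hR⟩ : Finset (Fin d → ZMod 2)) := by rw [this]; simp
  exact h2

lemma harb (k : ℕ) : ∀ S : Multiset (V d), Free k S → card S + 2 ^ d ≤ 2 ^ d * 2 ^ k := by
  induction k with
  | zero =>
    intro S h
    have : S = 0 := by
      by_contra h0
      obtain ⟨a, ha⟩ := exists_mem_of_ne_zero h0
      exact h {a} (singleton_le.2 ha) (by simp) (by simp)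
    simp [this]
  | succ k ih =>
    intro S h
    obtain ⟨P, R, rfl, hP, hR⟩ := pairing S
    have h1 := ih _ (lift k P R hP h)
    have h2 := card_R R hR
    simp only [un, card_add, card_map] at h1 ⊢
    rw [pow_succ, ← mul_assoc]; omega

def Q (d k : ℕ) : Prop := ∀ (U : Multiset (V d)) (x y : V d), Free k (x ::ₘ U) → Free k (y ::ₘ U) →
  card U + 1 + 2 ^ d = 2 ^ d * 2 ^ k → ∀ i, (2 : ℤ) ^ k ∣ x i - y i

lemma Dp (k : ℕ) (hQ : Q d k) (S : Multiset (V d)) (h : Free (k + 1) S)
    (hc : card S + 2 ^ d = 2 ^ d * 2 ^ (k + 1)) (x y : V d) (hx : x ∈ S) (hy : y ∈ S)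
    (hxy : cls x = cls y) (i : Fin d) : (2 : ℤ) ^ (k + 1) ∣ x i - y i := by
  classical
  by_cases e : x = y
  · simp [e]
  obtain ⟨S1, rfl⟩ := exists_cons_of_mem hx
  have hy1 : y ∈ S1 := (mem_cons.1 hy).resolve_left (Ne.symm e)
  obtain ⟨S0, rfl⟩ := exists_cons_of_mem hy1
  obtain ⟨P, R, rfl, hP, hR⟩ := pairing S0
  have key : ∀ (a b : V d) (R' : Multiset (V d)), cls a = cls b →
      x ::ₘ y ::ₘ (un P + R) = un ((a, b) ::ₘ P) + R' → Free k (hs (a, b) ::ₘ P.map hs) := by
    intro a b R' hab e
    have := lift k ((a, b) ::ₘ P) R' (by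
      intro p hp
      rcases mem_cons.1 hp with rfl | hp
      · exact hab
      · exact hP p hp) (e ▸ h)
    rwa [map_cons] at this
  have h1 := harb k _ (key x y R hxy (by simp only [un, map_cons]; simp only [← singleton_add]; abel))
  have h2 := card_R R hR
  simp only [un, card_add, card_map, card_cons] at h1 hc
  rw [pow_succ, ← mul_assoc] at hc
  obtain ⟨r, hr, hrx⟩ := mem_map.1 (full_R R hR (by omega) (cls x))
  obtain ⟨R', rfl⟩ := exists_cons_of_mem hr
  have f1 := key x r (y ::ₘ R') hrx.symm (by simp only [un, map_cons]; simp only [← singleton_add]; abel)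
  have f2 := key y r (x ::ₘ R') (hxy.symm.trans hrx.symm)
    (by simp only [un, map_cons]; simp only [← singleton_add]; abel)
  have h3 := hQ _ _ _ f1 f2 (by rw [card_map]; omega) i
  have e1 := two_hs (x, r) hrx.symm i
  have e2 := two_hs (y, r) (hxy.symm.trans hrx.symm) i
  have : x i - y i = 2 * (hs (x, r) i - hs (y, r) i) := by simp only at e1 e2; linarith
  rw [this, pow_succ']
  exact mul_dvd_mul_left _ h3

lemma sum_cong (n : ℤ) (t : ℤ) (A : Multiset ℤ) (h : ∀ a ∈ A, n ∣ a - t) :
    n ∣ A.sum - card A * t := by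
  induction A using Multiset.induction_on with
  | empty => simp
  | cons a A ih =>
    have h1 := ih (fun b hb => h b (mem_cons_of_mem hb))
    have h2 := h a (mem_cons_self _ _)
    have := dvd_add h1 h2
    simp only [sum_cons, card_cons]
    push_cast
    have e : a + A.sum - ((card A : ℤ) + 1) * t = A.sum - card A * t + (a - t) := by ring
    rw [e]; exact this

lemma split (S : Multiset (V d)) :
    S = ∑ c : Fin d → ZMod 2, S.filter (fun x => cls x = c) := by
  classical
  ext a
  rw [Multiset.count_sum']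
  simp [count_filter]

lemma cnt (k : ℕ) (hQ : Q d k) (S : Multiset (V d)) (h : Free (k + 1) S)
    (hc : card S + 2 ^ d = 2 ^ d * 2 ^ (k + 1)) (c : Fin d → ZMod 2) :
    card (S.filter (fun x => cls x = c)) + 1 = 2 ^ (k + 1) := by
  have hle : ∀ c : Fin d → ZMod 2, card (S.filter (fun x => cls x = c)) + 1 ≤ 2 ^ (k + 1) := by
    intro c
    by_contra hn
    obtain ⟨T, hT, hTc⟩ := exists_le_card_eq (s := S.filter (fun x => cls x = c))
      (n := 2 ^ (k + 1)) (by omega)
    have hT0 : T ≠ 0 := by rintro rfl; simp at hTc; exact absurd hTc.symm (by positivity)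
    obtain ⟨t, ht⟩ := exists_mem_of_ne_zero hT0
    refine h T (hT.trans (filter_le _ _)) hTc (fun i => ?_)
    have := sum_cong (2 ^ (k + 1)) (t i) (T.map (fun x => x i)) (by
      intro a ha
      obtain ⟨x, hx, rfl⟩ := mem_map.1 ha
      have m1 := mem_filter.1 (mem_of_le hT hx)
      have m2 := mem_filter.1 (mem_of_le hT ht)
      exact Dp k hQ S h hc x t m1.1 m2.1 (m1.2.trans m2.2.symm) i)
    rw [card_map, hTc] at this
    push_cast at this
    exact (dvd_sub_left (Dvd.intro _ rfl)).1 this
  have hs : ∑ c : Fin d → ZMod 2, (card (S.filter (fun x => cls x = c)) + 1)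
      = ∑ c : Fin d → ZMod 2, 2 ^ (k + 1) := by
    rw [Finset.sum_add_distrib, ← Multiset.card_sum, ← split S]
    simp only [Finset.sum_const, Finset.card_univ, card_cls, smul_eq_mul, mul_one]
    exact hc
  exact (Finset.sum_eq_sum_iff_of_le (fun c _ => hle c)).1 hs c (Finset.mem_univ _)

lemma Qall (k : ℕ) : Q d k := by
  induction k with
  | zero => intro U x y _ _ _ i; simp
  | succ k ih =>
    intro U x y hx hy hc i
    have c1 := cnt k ih _ hx (by rw [card_cons]; exact hc) (cls x)
    have c2 := cnt k ih _ hy (by rw [card_cons]; exact hc) (cls x)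
    have hyx : cls y = cls x := by
      by_contra hn
      rw [filter_cons_of_neg (p := fun z => cls z = cls x) _ hn] at c2
      rw [filter_cons_of_pos (p := fun z => cls z = cls x) _ rfl, card_cons] at c1
      omega
    rw [filter_cons_of_pos (p := fun z => cls z = cls x) _ rfl, card_cons] at c1
    by_cases h0 : U.filter (fun z => cls z = cls x) = 0
    · rw [h0] at c1
      simp only [card_zero] at c1
      have h1 := congrFun hyx i
      simp only [cls] at h1
      have h2 := (ZMod.intCast_eq_intCast_iff_dvd_sub _ _ 2).1 h1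
      have : (2 : ℤ) ^ (k + 1) = ((2 : ℕ) : ℤ) := by exact_mod_cast c1.symm
      rw [this]; exact h2
    · obtain ⟨z, hz⟩ := exists_mem_of_ne_zero h0
      have hz' := mem_filter.1 hz
      have a1 := Dp k ih _ hx (by rw [card_cons]; exact hc) x z (mem_cons_self _ _)
        (mem_cons_of_mem hz'.1) hz'.2.symm i
      have a2 := Dp k ih _ hy (by rw [card_cons]; exact hc) y z (mem_cons_self _ _)
        (mem_cons_of_mem hz'.1) (hyx.trans hz'.2.symm) i
      have := dvd_sub a1 a2
      have e : x i - y i = x i - z i - (y i - z i) := by ring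
      rw [e]; exact this

lemma upper (k : ℕ) (hd : 1 ≤ d) (hk : d ≤ k) (S : Multiset (V d)) (h : Free k S)
    (hc : card S + 2 ^ d = 2 ^ d * 2 ^ k) : ¬ ∀ i, (2 : ℤ) ^ k ∣ (S.map (fun x => x i)).sum := by
  intro hS
  obtain ⟨k, rfl⟩ : ∃ j, k = j + 1 := ⟨k - 1, by omega⟩
  obtain ⟨e, he⟩ : ∃ e, k + 1 = d + e := ⟨k + 1 - d, by omega⟩
  have hcnt := cnt k (Qall k) S h hc
  have hm : 2 ^ e < 2 ^ (k + 1) := Nat.pow_lt_pow_right (by norm_num) (by omega)
  have ex : ∀ c : Fin d → ZMod 2, ∃ T ≤ S.filter (fun x => cls x = c), card T = 2 ^ e :=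
    fun c => exists_le_card_eq (by have := hcnt c; omega)
  choose T hT hTc using ex
  refine h (∑ c, T c) ?_ ?_ ?_
  · rw [split S]
    exact Finset.sum_le_sum (fun c _ => hT c)
  · rw [Multiset.card_sum]
    simp only [hTc, Finset.sum_const, Finset.card_univ, card_cls, smul_eq_mul]
    rw [he, pow_add]
  · intro i
    have e1 : ((∑ c, T c).map (fun x => x i)).sum = ∑ c, ((T c).map (fun x => x i)).sum := by
      rw [msum]
    have e2 : (S.map (fun x => x i)).sum
        = ∑ c : Fin d → ZMod 2, ((S.filter (fun x => cls x = c)).map (fun x => x i)).sum := by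
      conv_lhs => rw [split S]
      rw [msum]
    have key : ∀ c : Fin d → ZMod 2, (2 : ℤ) ^ (k + 1) ∣ ((T c).map (fun x => x i)).sum
        + 2 ^ e * ((S.filter (fun x => cls x = c)).map (fun x => x i)).sum := by
      intro c
      have hT0 : T c ≠ 0 := by
        intro h0
        have := hTc c
        rw [h0] at this
        exact absurd this.symm (by simp)
      obtain ⟨t, ht⟩ := exists_mem_of_ne_zero hT0
      have m2 := mem_filter.1 (mem_of_le (hT c) ht)
      have gen : ∀ A ≤ S.filter (fun x => cls x = c), (2 : ℤ) ^ (k + 1) ∣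
          (A.map (fun x => x i)).sum - card A * t i := by
        intro A hA
        have := sum_cong (2 ^ (k + 1)) (t i) (A.map (fun x => x i)) (by
          intro a ha
          obtain ⟨x, hx, rfl⟩ := mem_map.1 ha
          have m1 := mem_filter.1 (mem_of_le hA hx)
          exact Dp k (Qall k) S h hc x t m1.1 m2.1 (m1.2.trans m2.2.symm) i)
        rwa [card_map] at this
      have g1 := gen _ (hT c)
      have g2 := gen _ le_rfl
      have g3 : ((card (S.filter (fun x => cls x = c)) : ℕ) : ℤ) = 2 ^ (k + 1) - 1 := by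
        have := hcnt c
        have : ((card (S.filter (fun x => cls x = c)) : ℕ) : ℤ) + 1 = 2 ^ (k + 1) := by
          exact_mod_cast this
        linarith
      rw [hTc] at g1
      rw [g3] at g2
      push_cast at g1
      have := dvd_add (dvd_add g1 (Dvd.dvd.mul_left g2 (2 ^ e)))
        (Dvd.intro (2 ^ e * t i) (rfl : (2 : ℤ) ^ (k + 1) * _ = _))
      obtain ⟨w, hw⟩ := this
      exact ⟨w, by linear_combination hw⟩
    have := Finset.dvd_sum (fun c (_ : c ∈ Finset.univ) => key c)
    rw [Finset.sum_add_distrib, ← Finset.mul_sum, ← e1, ← e2] at this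
    exact (dvd_add_left (Dvd.dvd.mul_left (hS i) _)).1 this

/-- the Harborth points, shifted by the constant `a` -/
def pt (a : ℤ) (b : Fin d → Bool) : V d := fun i => a + if b i then 1 else 0

lemma sum_pt (a : ℤ) (i : Fin d) (T : Multiset (Fin d → Bool)) :
    ((T.map (pt a)).map (fun x => x i)).sum
      = card T * a + card (T.filter (fun b => b i = true)) := by
  induction T using Multiset.induction_on with
  | empty => simp
  | cons b T ih =>
    simp only [map_cons, sum_cons, ih, card_cons, pt]
    by_cases hb : b i = true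
    · rw [filter_cons_of_pos (p := fun b : Fin d → Bool => b i = true) _ hb, card_cons]; simp only [hb, if_true]; push_cast; ring
    · rw [filter_cons_of_neg (p := fun b : Fin d → Bool => b i = true) _ hb]; simp only [hb]; push_cast; simp; ring

lemma free_pt (k : ℕ) (a : ℤ) (W : Multiset (Fin d → Bool))
    (hW : W ≤ (2 ^ k - 1) • (Finset.univ : Finset (Fin d → Bool)).val) : Free k (W.map (pt a)) := by
  intro T hT hc hd
  obtain ⟨T, hTW, rfl⟩ := le_map' _ _ _ hT
  rw [card_map] at hc
  have hp : 0 < 2 ^ k := by positivity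
  have hT0 : T ≠ 0 := by rintro rfl; simp at hc; omega
  obtain ⟨t, ht⟩ := exists_mem_of_ne_zero hT0
  have hall : ∀ b ∈ T, b = t := by
    intro b hb
    funext i
    have h1 := hd i
    rw [sum_pt, hc] at h1
    push_cast at h1
    have h2 : 2 ^ k ∣ card (T.filter (fun b => b i = true)) := by
      exact_mod_cast (dvd_add_right (Dvd.intro _ rfl)).1 h1
    have h3 : card (T.filter (fun b => b i = true)) ≤ 2 ^ k := hc ▸ card_le_card (filter_le _ _)
    by_cases h0 : card (T.filter (fun b => b i = true)) = 0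
    · rw [card_eq_zero, filter_eq_nil] at h0
      have a1 := h0 b hb
      have a2 := h0 t ht
      simp only [Bool.not_eq_true] at a1 a2
      rw [a1, a2]
    · have h4 := Nat.le_of_dvd (Nat.pos_of_ne_zero h0) h2
      have h5 : T.filter (fun b => b i = true) = T :=
        eq_of_le_of_card_le (filter_le _ _) (by omega)
      rw [filter_eq_self] at h5
      rw [h5 b hb, h5 t ht]
  have h6 : count t T = 2 ^ k := by
    rw [← hc]; exact count_eq_card.2 (fun b hb => (hall b hb).symm)
  have h7 := count_le_of_le t (hTW.trans hW)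
  rw [count_nsmul, count_eq_one_of_mem Finset.univ.nodup (Finset.mem_univ_val _)] at h7
  omega

lemma half (i : Fin d) : 2 * card ((Finset.univ : Finset (Fin d → Bool)).val.filter
    (fun b => b i = true)) = 2 ^ d := by
  have h1 : ((Finset.univ : Finset (Fin d → Bool)).filter (fun b => b i = true)).card
      = ((Finset.univ : Finset (Fin d → Bool)).filter (fun b => ¬ b i = true)).card := by
    refine Finset.card_bij' (fun b _ => fun j => !b j) (fun b _ => fun j => !b j) ?_ ?_ ?_ ?_
    · intro b hb; simpa using hb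
    · intro b hb; simpa using hb
    · intro b _; funext j; simp
    · intro b _; funext j; simp
  have h2 := Finset.card_filter_add_card_filter_not (s := (Finset.univ : Finset (Fin d → Bool)))
    (fun b => b i = true)
  have h3 : (Finset.univ : Finset (Fin d → Bool)).card = 2 ^ d := by simp
  have h4 : card ((Finset.univ : Finset (Fin d → Bool)).val.filter (fun b => b i = true))
      = ((Finset.univ : Finset (Fin d → Bool)).filter (fun b => b i = true)).card := rfl
  omega

def phi (k : ℕ) (x : V d) : Fin d → ZMod (2 ^ k) := fun i => (x i : ZMod (2 ^ k))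

lemma sum_phi (k : ℕ) (T : Multiset (V d)) :
    (T.map (phi k)).sum = 0 ↔ ∀ i, (2 : ℤ) ^ k ∣ (T.map (fun x => x i)).sum := by
  have : ∀ i, (T.map (phi k)).sum i = (((T.map (fun x => x i)).sum : ℤ) : ZMod (2 ^ k)) := by
    intro i
    induction T using Multiset.induction_on with
    | empty => simp
    | cons a T ih => simp only [map_cons, sum_cons, Pi.add_apply, ih, phi]; push_cast; rfl
  rw [funext_iff]
  refine forall_congr' (fun i => ?_)
  rw [this, Pi.zero_apply, ZMod.intCast_zmod_eq_zero_iff_dvd]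
  push_cast; rfl

lemma free_iff (k : ℕ) (S : Multiset (V d)) :
    Free k S ↔ ¬ ∃ T ≤ S.map (phi k), card T = 2 ^ k ∧ T.sum = 0 := by
  constructor
  · rintro h ⟨T, hT, hc, h0⟩
    obtain ⟨T, hTS, rfl⟩ := le_map' _ _ _ hT
    exact h T hTS (by simpa using hc) ((sum_phi k T).1 h0)
  · intro h T hT hc h0
    exact h ⟨T.map (phi k), map_le_map hT, by simpa using hc, (sum_phi k T).2 h0⟩

lemma surj (k : ℕ) (S : Multiset (Fin d → ZMod (2 ^ k))) : ∃ S' : Multiset (V d),
    S = S'.map (phi k) := by
  refine ⟨S.map (fun x i => (ZMod.cast (x i) : ℤ)), ?_⟩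
  rw [map_map]
  conv_lhs => rw [← map_id S]
  refine map_congr rfl (fun x _ => ?_)
  funext i
  simp [phi]

theorem result (k d : ℕ) (hd : 1 ≤ d) (l : ℕ) (hl : IsLeast {m : ℕ | 2 ^ d ≤ m ∧ ¬ m ∣ 2 ^ k} l) :
    ∃ L : ℕ, IsLeast {L : ℕ | ∀ S : Multiset (Fin d → ZMod (2 ^ k)), S.sum = 0 → L ≤ card S →
      ∃ T ≤ S, card T = 2 ^ k ∧ T.sum = 0} L ∧ (L : ℤ) = 2 ^ d * 2 ^ k - l + 1 := by
  have hp : 0 < 2 ^ k := by positivity
  have hq : 0 < 2 ^ d := by positivity
  obtain ⟨m, hm⟩ : ∃ m, 2 ^ k = m + 1 := ⟨2 ^ k - 1, by omega⟩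
  have hm' : 2 ^ k - 1 = m := by omega
  have hmz : (2 : ℤ) ^ k = m + 1 := by exact_mod_cast hm
  have hU : card (m • (Finset.univ : Finset (Fin d → Bool)).val) = 2 ^ d * m := by
    simp [mul_comm]
  have hF : ∀ i : Fin d, card ((m • (Finset.univ : Finset (Fin d → Bool)).val).filter
      (fun b => b i = true)) = m * 2 ^ (d - 1) := by
    intro i
    have := half i
    rw [filter_nsmul, card_nsmul]
    congr 1
    obtain ⟨d, rfl⟩ : ∃ e, d = e + 1 := ⟨d - 1, by omega⟩
    rw [pow_succ] at this
    simp only [Nat.add_sub_cancel]; omega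
  by_cases hk : d ≤ k
  · have hl' : l = 2 ^ d + 1 := by
      have hnd : ¬ (2 ^ d + 1) ∣ 2 ^ k := by
        intro h
        have hc : Nat.Coprime (2 ^ d + 1) (2 ^ k) := by
          apply Nat.Coprime.pow_right
          rw [Nat.coprime_two_right]
          exact (Even.add_one (by rw [Nat.even_pow]; exact ⟨by norm_num, by omega⟩))
        have := Nat.Coprime.eq_one_of_dvd hc h
        omega
      have a1 := hl.2 (show 2 ^ d + 1 ∈ {m : ℕ | 2 ^ d ≤ m ∧ ¬ m ∣ 2 ^ k} from ⟨by omega, hnd⟩)
      have a2 := hl.1.1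
      have a3 : l ≠ 2 ^ d := by rintro rfl; exact hl.1.2 (pow_dvd_pow _ hk)
      omega
    refine ⟨2 ^ d * m, ⟨?_, ?_⟩, ?_⟩
    · intro S h0 hL
      obtain ⟨S, rfl⟩ := surj k S
      by_contra hn
      have hf := (free_iff k S).2 hn
      have h1 := harb k S hf
      rw [card_map] at hL
      exact upper k hd hk S hf (by rw [hm] at h1 ⊢; nlinarith) ((sum_phi k S).1 h0)
    · intro L hL
      by_contra hn
      have hm0 : 0 < m := by
        have : 2 ^ 1 ≤ 2 ^ k := Nat.pow_le_pow_right (by norm_num) (by omega)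
        omega
      have hmem : (fun _ => false) ∈ m • (Finset.univ : Finset (Fin d → Bool)).val := by
        rw [mem_nsmul]; exact ⟨by omega, Finset.mem_univ_val _⟩
      obtain ⟨W, hW⟩ := exists_cons_of_mem hmem
      have hWc : card W + 1 = 2 ^ d * m := by rw [← hU, hW, card_cons]
      have hodd : IsCoprime ((card W : ℕ) : ℤ) (2 ^ k) := by
        have : Nat.Coprime (card W) (2 ^ k) := by
          apply Nat.Coprime.pow_right
          rw [Nat.coprime_two_right, ← Nat.not_even_iff_odd, ← Nat.even_add_one, hWc]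
          exact Even.mul_right (by rw [Nat.even_pow]; exact ⟨by norm_num, by omega⟩) _
        exact_mod_cast Nat.isCoprime_iff_coprime.2 this
      obtain ⟨u, v, huv⟩ := hodd
      have hf := free_pt k (-(u * (m * 2 ^ (d - 1)))) W (by rw [hm', hW]; exact le_cons_self _ _)
      refine (free_iff k _).1 hf (hL _ ((sum_phi k _).2 (fun i => ?_)) (by
        simp only [card_map]; omega))
      have := hF i
      rw [hW, filter_cons_of_neg (p := fun b : Fin d → Bool => b i = true) _ (by simp)] at this
      rw [sum_pt, this]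
      push_cast
      exact ⟨v * (m * 2 ^ (d - 1)), by linear_combination (-(m * 2 ^ (d - 1) : ℤ)) * huv⟩
    · rw [hl', hmz]; push_cast; ring
  · have hl' : l = 2 ^ d := by
      have hnd : ¬ 2 ^ d ∣ 2 ^ k := by
        rw [Nat.pow_dvd_pow_iff_le_right (by norm_num)]; exact hk
      have a1 := hl.2 (show 2 ^ d ∈ {m : ℕ | 2 ^ d ≤ m ∧ ¬ m ∣ 2 ^ k} from ⟨le_rfl, hnd⟩)
      have a2 := hl.1.1
      omega
    refine ⟨2 ^ d * m + 1, ⟨?_, ?_⟩, ?_⟩
    · intro S h0 hL
      obtain ⟨S, rfl⟩ := surj k S
      by_contra hn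
      have h1 := harb k S ((free_iff k S).2 hn)
      rw [card_map] at hL
      rw [hm] at h1; nlinarith
    · intro L hL
      by_contra hn
      have hf := free_pt k 0 _ (le_of_eq (by rw [hm'] :
        m • (Finset.univ : Finset (Fin d → Bool)).val = _))
      refine (free_iff k _).1 hf (hL _ ((sum_phi k _).2 (fun i => ?_)) (by
        simp only [card_map]; omega))
      rw [sum_pt, hF i]
      push_cast
      rw [mul_zero, zero_add]
      exact Dvd.dvd.mul_left (pow_dvd_pow _ (by omega)) _
    · rw [hl', hmz]; push_cast; ring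

end Pool.Agent.Results.MP_4c442e_co.Full
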